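import Pool.Agent.Lib.MP_e1f7e2_al.SU.Iface2

set_option autoImplicit false

/-!
Modules ASYM, FINVAL, LEXC, MINI.
-/

open MvPolynomial

namespace Pool.Agent.Lib.MP_e1f7e2_al.SU.H52

variable {K : Type*} [Field K] {w : Fin 3 → ℝ}

lemma co_zero (Cf : CoefFacts K) (j : ℕ) : co j (0 : MvPolynomial (Fin 3) K) = 0 := by
  have h := Cf.lin j 1 (0 : MvPolynomial (Fin 3) K) 0
  simp only [map_one, one_mul, add_zero] at h
  exact left_eq_add.mp h

lemma co_add (Cf : CoefFacts K) (j : ℕ) (H H' : MvPolynomial (Fin 3) K) :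
    co j (H + H') = co j H + co j H' := by
  have h := Cf.lin j 1 H H'
  simpa only [map_one, one_mul] using h

lemma co_smul (Cf : CoefFacts K) (j : ℕ) (c : K) (H : MvPolynomial (Fin 3) K) :
    co j (c • H) = C c * co j H := by
  have h := Cf.lin j c H 0
  rw [co_zero Cf, add_zero, add_zero] at h
  rw [smul_eq_C_mul, h]

lemma equiv_C (φ : MvPolynomial (Fin 3) K ≃ₐ[K] MvPolynomial (Fin 3) K) (c : K) :
    φ (C c) = C c := by
  have := φ.commutes c
  rwa [algebraMap_eq] at this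

/-- uniform bounds on a finite dimensional space -/
lemma bound (F : Facts K w) (Cf : CoefFacts K)
    (ψ : MvPolynomial (Fin 3) K ≃ₐ[K] MvPolynomial (Fin 3) K)
    (W : Submodule K (MvPolynomial (Fin 3) K)) (hW : FiniteDimensional K W) :
    ∃ (Cm : ℝ) (Dm : ℕ), 0 ≤ Cm ∧ ∀ H ∈ W, ∀ j : ℕ,
      dg w (ψ.symm (co j H)) ≤ Cm ∧ (Dm < j → co j H = 0) := by
  obtain ⟨s, hs⟩ := (Submodule.fg_iff_finiteDimensional W).mpr hW
  set Cm : ℝ := ∑ b ∈ s, ∑ j ∈ Finset.range (dX b + 1), dg w (ψ.symm (co j b)) with hCm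
  set Dm : ℕ := ∑ b ∈ s, dX b with hDm
  have hC0 : 0 ≤ Cm := Finset.sum_nonneg fun b _ => Finset.sum_nonneg fun j _ => F.d.nn _
  refine ⟨Cm, Dm, hC0, ?_⟩
  intro H hH
  rw [← hs] at hH
  induction hH using Submodule.span_induction with
  | mem b hb =>
    intro j
    have hb' : b ∈ s := hb
    constructor
    · by_cases hj : j ≤ dX b
      · have h1 : dg w (ψ.symm (co j b)) ≤
            ∑ j ∈ Finset.range (dX b + 1), dg w (ψ.symm (co j b)) :=
          Finset.single_le_sum (f := fun j => dg w (ψ.symm (co j b)))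
            (fun i _ => F.d.nn _) (Finset.mem_range.mpr (by omega))
        have h2 : ∑ j ∈ Finset.range (dX b + 1), dg w (ψ.symm (co j b)) ≤ Cm :=
          Finset.single_le_sum
            (f := fun b => ∑ j ∈ Finset.range (dX b + 1), dg w (ψ.symm (co j b)))
            (fun i _ => Finset.sum_nonneg fun j _ => F.d.nn _) hb'
        exact h1.trans h2
      · rw [Cf.big j b (by omega), map_zero, F.d.zero]
        exact hC0
    · intro hj
      apply Cf.big
      have h2 : dX b ≤ Dm := Finset.single_le_sum (f := fun b => dX b)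
        (fun i _ => Nat.zero_le _) hb'
      omega
  | zero =>
    intro j
    rw [co_zero Cf, map_zero, F.d.zero]
    exact ⟨hC0, fun _ => rfl⟩
  | add x y _ _ hx hy =>
    intro j
    rw [co_add Cf, map_add]
    refine ⟨(F.d.add_le _ _).trans (max_le (hx j).1 (hy j).1), fun h => ?_⟩
    rw [(hx j).2 h, (hy j).2 h, add_zero]
  | smul c x _ hx =>
    intro j
    rw [co_smul Cf, map_mul, equiv_C]
    refine ⟨(F.d.Cmul_le _ _).trans (hx j).1, fun h => ?_⟩
    rw [(hx j).2 h, mul_zero]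

/-- `φ` fixes `Ad K` -/
lemma phi_fix {φ : MvPolynomial (Fin 3) K ≃ₐ[K] MvPolynomial (Fin 3) K}
    {g : MvPolynomial (Fin 3) K} (h : IsPhi φ g) (x : MvPolynomial (Fin 3) K) (hx : x ∈ Ad K) :
    φ x = x := by
  unfold Ad at hx
  induction hx using Algebra.adjoin_induction with
  | mem x hx =>
    rcases hx with rfl | rfl
    · exact h.2.1
    · exact h.2.2
  | algebraMap r => exact φ.commutes r
  | add x y _ _ hx hy => rw [map_add, hx, hy]
  | mul x y _ _ hx hy => rw [map_mul, hx, hy]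

/-- module ASYM -/
theorem asym (F : Facts K w) (Cf : CoefFacts K) : AsymStatement K w := by
  intro ψ f hf hq W hW
  obtain ⟨Cm, Dm, hC0, hb⟩ := bound F Cf ψ W hW
  set q := dg w (ψ.symm f) with hqd
  obtain ⟨N0, hN0⟩ := exists_nat_gt ((Cm + dg w (ψ.symm (X 0))) / q)
  refine ⟨N0, ?_⟩
  intro N hN φ hφ H hH hH0
  have hNq : Cm + dg w (ψ.symm (X 0)) < N * q := by
    have h1 : (N0 : ℝ) ≤ N := by exact_mod_cast hN
    have h2 := (div_lt_iff₀ hq).mp hN0
    nlinarith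
  have hx0 := F.d.nn (ψ.symm (X 0))
  -- the element T
  set T : MvPolynomial (Fin 3) K := ψ.symm (X 0) + ψ.symm f ^ N with hT
  have hTd : dg w T = N * q := by
    rw [hT, F.d.add_right _ _ (by rw [F.d.pow]; linarith), F.d.pow]
  have hNq0 : 0 < (N : ℝ) * q := by linarith
  have hT0 : T ≠ 0 := by
    intro h
    rw [h, F.d.zero] at hTd
    linarith
  have hφH : ψ.symm (φ H) = ∑ j ∈ Finset.range (dX H + 1), ψ.symm (co j H) * T ^ j := by
    conv_lhs => rw [Cf.rep H]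
    rw [map_sum, map_sum]
    refine Finset.sum_congr rfl fun j _ => ?_
    rw [map_mul, map_mul, phi_fix hφ _ (Cf.mem j H), map_pow, map_pow, hφ.1, map_add, map_pow]
  rw [hφH, Finset.sum_range_succ]
  have hlc : ψ.symm (co (dX H) H) ≠ 0 := by
    have h1 := Cf.ne H hH0
    unfold lcX at h1
    intro h
    apply h1
    have h2 := congrArg ψ h
    rwa [AlgEquiv.apply_symm_apply, map_zero] at h2
  have htop : dg w (ψ.symm (co (dX H) H) * T ^ dX H) = eX w ψ H + N * dX H * q := by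
    rw [F.d.mul _ _ hlc (pow_ne_zero _ hT0), F.d.pow, hTd]
    unfold eX lcX
    ring
  have he0 : 0 ≤ eX w ψ H := F.d.nn _
  rcases Nat.eq_zero_or_pos (dX H) with h0 | h0
  · rw [h0] at htop ⊢
    rw [Finset.range_zero, Finset.sum_empty, zero_add]
    exact htop
  · have hlow : dg w (∑ j ∈ Finset.range (dX H), ψ.symm (co j H) * T ^ j) ≤
        Cm + N * (dX H - 1) * q := by
      have h1 : (1 : ℝ) ≤ dX H := by exact_mod_cast h0
      have h2 : 0 ≤ (N : ℝ) * (dX H - 1) * q := by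
        have : 0 ≤ ((N : ℝ) * q) * (dX H - 1) := mul_nonneg hNq0.le (by linarith)
        linarith
      refine F.d.sum_le ℕ _ _ _ (by linarith) ?_
      intro j hj
      refine (F.d.mul_le _ _).trans ?_
      rw [F.d.pow, hTd]
      have h3 := (hb H hH j).1
      have h4 : (j : ℝ) ≤ dX H - 1 := by
        have : j + 1 ≤ dX H := Finset.mem_range.mp hj
        have : ((j + 1 : ℕ) : ℝ) ≤ dX H := by exact_mod_cast this
        push_cast at this
        linarith
      have h5 : (j : ℝ) * (N * q) ≤ (dX H - 1) * (N * q) :=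
        mul_le_mul_of_nonneg_right h4 hNq0.le
      linarith
    rw [F.d.add_right _ _ (by rw [htop]; linarith), htop]

/-- module FINVAL -/
theorem finval (F : Facts K w) (Cf : CoefFacts K) : FinvalStatement K w := by
  intro ψ W hW
  obtain ⟨Cm, Dm, hC0, hb⟩ := bound F Cf ψ W hW
  constructor
  · refine (F.d.fin Cm).subset ?_
    rintro x ⟨H, hH, rfl⟩
    refine ⟨(hb H hH (dX H)).1, ?_⟩
    exact F.d.val _
  · refine ⟨Dm, fun H hH => ?_⟩
    by_contra hc
    push_neg at hc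
    have h1 := (hb H hH (dX H)).2 hc
    by_cases h0 : H = 0
    · subst h0
      have : dX (0 : MvPolynomial (Fin 3) K) = 0 := by
        unfold dX
        rw [map_zero, Polynomial.natDegree_zero]
      omega
    · exact Cf.ne H h0 h1

/-- entries of coset tuples are nonzero -/
lemma cos_ne {ψ : MvPolynomial (Fin 3) K ≃ₐ[K] MvPolynomial (Fin 3) K}
    {Y : Fin 3 → MvPolynomial (Fin 3) K} (h : Cos ψ Y) (i : Fin 3) : Y i ≠ 0 := by
  obtain ⟨τ, -, h2⟩ := h
  rw [h2 i]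
  intro h3
  have h4 : τ (X i) = 0 := by
    have := congrArg ψ.symm h3
    rwa [AlgEquiv.symm_apply_apply, map_zero] at this
  have h5 : (X i : MvPolynomial (Fin 3) K) = 0 := by
    have := congrArg τ.symm h4
    rwa [AlgEquiv.symm_apply_apply, map_zero] at this
  exact X_ne_zero i h5

/-- module LEXC -/
theorem lexc (F : Facts K w) (hasym : AsymStatement K w) : LexcStatement K w := by
  intro ψ Y f B hY hf hq
  set W : Submodule K (MvPolynomial (Fin 3) K) := PolyB B Y ⊔ Submodule.span K (Set.range Y)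
    with hWd
  have hW : FiniteDimensional K W := by
    have h1 : FiniteDimensional K (PolyB B Y) := by
      unfold PolyB
      have : FiniteDimensional K (restrictTotalDegree (Fin 3) K B) :=
        inferInstance
      infer_instance
    have h2 : FiniteDimensional K (Submodule.span K (Set.range Y)) :=
      FiniteDimensional.span_of_finite K (Set.finite_range Y)
    exact Submodule.finiteDimensional_sup _ _
  obtain ⟨N0, hN0⟩ := hasym ψ f hf hq W hW
  obtain ⟨N1, hN1⟩ := exists_nat_gt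
    ((eX w ψ (Y 0) + eX w ψ (Y 1) + eX w ψ (Y 2)) / dg w (ψ.symm f))
  refine ⟨max N0 N1, ?_⟩
  intro N hN φ hφ Y' hY' hB
  have hNa : N0 ≤ N := (le_max_left _ _).trans hN
  have hNb : N1 ≤ N := (le_max_right _ _).trans hN
  have e1 : ∀ i, dg w (ψ.symm (φ (Y i))) = eX w ψ (Y i) + N * dX (Y i) * dg w (ψ.symm f) :=
    fun i => hN0 N hNa φ hφ (Y i)
      (Submodule.mem_sup_right (Submodule.subset_span ⟨i, rfl⟩)) (cos_ne hY.1 i)
  have e2 : ∀ i, dg w (ψ.symm (φ (Y' i))) = eX w ψ (Y' i) + N * dX (Y' i) * dg w (ψ.symm f) :=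
    fun i => hN0 N hNa φ hφ (Y' i) (Submodule.mem_sup_left (hB i)) (cos_ne hY' i)
  rw [e1 0, e1 1, e1 2, e2 0, e2 1, e2 2]
  have nnY' : ∀ i, 0 ≤ eX w ψ (Y' i) := fun i => F.d.nn _
  have n0 := nnY' 0
  have n1 := nnY' 1
  have n2 := nnY' 2
  rcases hY.2 Y' hY' with h | ⟨h, h'⟩
  · have h1 : ((dX (Y 0) + dX (Y 1) + dX (Y 2) + 1 : ℕ) : ℝ) ≤
        ((dX (Y' 0) + dX (Y' 1) + dX (Y' 2) : ℕ) : ℝ) := by exact_mod_cast h
    push_cast at h1
    have h2 : eX w ψ (Y 0) + eX w ψ (Y 1) + eX w ψ (Y 2) < N * dg w (ψ.symm f) := by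
      have h3 : (N1 : ℝ) ≤ N := by exact_mod_cast hNb
      have h4 := (div_lt_iff₀ hq).mp hN1
      nlinarith
    have h5 : 0 ≤ (N : ℝ) * dg w (ψ.symm f) := by positivity
    have h6 := mul_le_mul_of_nonneg_left h1 h5
    nlinarith
  · have h1 : ((dX (Y 0) + dX (Y 1) + dX (Y 2) : ℕ) : ℝ) =
        ((dX (Y' 0) + dX (Y' 1) + dX (Y' 2) : ℕ) : ℝ) := by exact_mod_cast h
    push_cast at h1
    have h5 : (N : ℝ) * (dX (Y 0) + dX (Y 1) + dX (Y 2)) * dg w (ψ.symm f) =
        (N : ℝ) * (dX (Y' 0) + dX (Y' 1) + dX (Y' 2)) * dg w (ψ.symm f) := by rw [h1]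
    linarith

lemma wt_add (α β : Fin 3 →₀ ℕ) : wt w (α + β) = wt w α + wt w β := by
  unfold wt
  rw [← Finset.sum_add_distrib]
  refine Finset.sum_congr rfl fun i _ => ?_
  rw [Finsupp.add_apply]; push_cast; ring

/-- module MINI -/
theorem mini (F : Facts K w) : MiniStatement K w := by
  intro ψ
  -- minimal sum of the degrees in X 0
  have hne : ∃ n : ℕ, ∃ Y : Fin 3 → MvPolynomial (Fin 3) K, Cos ψ Y ∧
      dX (Y 0) + dX (Y 1) + dX (Y 2) = n :=
    ⟨_, fun i => ψ (X i), ⟨1, Subgroup.one_mem _, fun i => rfl⟩, rfl⟩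
  classical
  set n := Nat.find hne with hn
  obtain ⟨Y0, hY0, hY0n⟩ := Nat.find_spec hne
  have hmin : ∀ Y' : Fin 3 → MvPolynomial (Fin 3) K, Cos ψ Y' →
      n ≤ dX (Y' 0) + dX (Y' 1) + dX (Y' 2) := fun Y' hY' =>
    Nat.find_min' hne ⟨Y', hY', rfl⟩
  set E : (Fin 3 → MvPolynomial (Fin 3) K) → ℝ :=
    fun Y => eX w ψ (Y 0) + eX w ψ (Y 1) + eX w ψ (Y 2) with hE
  have hval : ∀ Y : Fin 3 → MvPolynomial (Fin 3) K, ∃ α : Fin 3 →₀ ℕ, E Y = wt w α := by
    intro Y
    obtain ⟨α, hα⟩ := F.d.val (ψ.symm (lcX (Y 0)))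
    obtain ⟨β, hβ⟩ := F.d.val (ψ.symm (lcX (Y 1)))
    obtain ⟨δ, hδ⟩ := F.d.val (ψ.symm (lcX (Y 2)))
    refine ⟨α + β + δ, ?_⟩
    rw [wt_add, wt_add, ← hα, ← hβ, ← hδ]
    rfl
  set Sx : Set ℝ := {x | x ≤ E Y0 ∧ ∃ Y : Fin 3 → MvPolynomial (Fin 3) K, Cos ψ Y ∧
    dX (Y 0) + dX (Y 1) + dX (Y 2) = n ∧ x = E Y} with hS
  have hfin : Sx.Finite := by
    refine (F.d.fin (E Y0)).subset ?_
    rintro x ⟨h1, Y, -, -, rfl⟩
    exact ⟨h1, hval Y⟩
  obtain ⟨x, ⟨hx1, Y, hY, hYn, rfl⟩, hx2⟩ := Set.exists_min_image Sx id hfin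
    ⟨E Y0, le_rfl, Y0, hY0, hY0n, rfl⟩
  refine ⟨Y, hY, ?_⟩
  intro Y' hY'
  rcases lt_or_eq_of_le (hmin Y' hY') with h | h
  · left; rw [hYn]; exact h
  · right
    refine ⟨by rw [hYn]; exact h, ?_⟩
    by_cases h1 : E Y' ≤ E Y0
    · exact hx2 (E Y') ⟨h1, Y', hY', h.symm, rfl⟩
    · push_neg at h1
      exact hx1.trans h1.le

end Pool.Agent.Lib.MP_e1f7e2_al.SU.H52
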