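import Pool.Agent.Lib.MP_e1f7e2_al.SU.H52.Tools

set_option autoImplicit false

/-!
Module BSTAR.
-/

open MvPolynomial

namespace Pool.Agent.Lib.MP_e1f7e2_al.SU.H52

variable {K : Type*} [Field K] {w : Fin 3 → ℝ}

/-- `(2γ, 3γ/2)` : degenerate polynomials have degree at least `5γ/2 + b` -/
lemma deg43 (S : SuAll K w) {f g : MvPolynomial (Fin 3) K} {P : MvPolynomial (Fin 2) K} {γ : ℝ}
    (hγ : 0 < γ) (hf : dg w f = 2 * γ) (hg : dg w g = 3 / 2 * γ) (hb : 0 < br w f g)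
    (hd : dg w (ev P f g) < vdg (dg w f) (dg w g) P) :
    5 / 2 * γ + br w f g ≤ dg w (ev P f g) := by
  obtain ⟨p, q, m, γ', hγ', hp, hq, hm, hc, h1, h2, hl⟩ := degen S hb hd
  have e1 : (3 * p : ℝ) = 4 * q := by
    have h3 : (p : ℝ) * γ' * 3 = q * γ' * 4 := by rw [← h1, ← h2, hf, hg]; ring
    have h4 : (3 * p - 4 * q : ℝ) * γ' = 0 := by linarith
    rcases mul_eq_zero.mp h4 with h5 | h5
    · linarith
    · exact absurd h5 hγ'.ne'
  have e2 : 3 * p = 4 * q := by exact_mod_cast e1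
  have e3 : 4 ∣ p := (Nat.Coprime.dvd_of_dvd_mul_left (by norm_num : Nat.Coprime 4 3))
    ⟨q, e2⟩
  obtain ⟨k, rfl⟩ := e3
  have e4 : q = 3 * k := by omega
  subst e4
  have e5 : k ∣ Nat.gcd (4 * k) (3 * k) :=
    Nat.dvd_gcd ⟨4, by ring⟩ ⟨3, by ring⟩
  rw [hc] at e5
  have e6 : k = 1 := Nat.dvd_one.mp e5
  subst e6
  push_cast at h1 h2 hl
  have h5 : γ' = γ / 2 := by
    linarith
  subst h5
  have hm' : (1 : ℝ) ≤ m := by exact_mod_cast hm
  have h6 : (4 * 3 - 4 - 3 : ℝ) * (γ / 2) + br w f g = 5 / 2 * γ + br w f g := by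
    ring
  rw [h6] at hl
  nlinarith

/-- the shape of `R` -/
lemma shape (F : Facts K w) {f2 f3 : MvPolynomial (Fin 3) K} {R : MvPolynomial (Fin 2) K} {γ : ℝ}
    (hγ : 0 < γ) (h2 : dg w f2 = 2 * γ) (h3 : dg w f3 = 3 / 2 * γ)
    (hv : vdg (dg w f2) (dg w f3) R = 3 * γ) :
    ∃ c0 c1 c2 c3 : K, ev R f2 f3 = C c0 + C c1 * f2 + C c2 * f3 + C c3 * f3 ^ 2 := by
  have hs : ∀ m ∈ R.support, (m 0 = 0 ∧ m 1 ≤ 2) ∨ (m 0 = 1 ∧ m 1 = 0) := by
    intro m hm
    have h := F.p.ge (dg w f2) (dg w f3) R m hm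
    rw [hv, h2, h3] at h
    rcases nat01 (m 0) with h0 | h0 | h0
    · left
      refine ⟨h0, ?_⟩
      by_contra hc
      have h5 : (3 : ℝ) ≤ m 1 := by
        have : 3 ≤ m 1 := by omega
        exact_mod_cast this
      rw [h0] at h
      push_cast at h
      nlinarith
    · right
      refine ⟨h0, ?_⟩
      by_contra hc
      have h5 : (1 : ℝ) ≤ m 1 := by
        have : 1 ≤ m 1 := by omega
        exact_mod_cast this
      rw [h0] at h
      push_cast at h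
      nlinarith
    · exfalso
      have h5 : (0 : ℝ) ≤ m 1 := by positivity
      nlinarith
  obtain ⟨c0, c1, c2, c3, h⟩ := F.p.quad R hs
  exact ⟨c0, c1, c2, c3, h f2 f3⟩

/-- derivative of `h1` -/
lemma D_h1 (f1 f2 f3 : MvPolynomial (Fin 3) K) (c0 c1 c2 c3 : K) :
    D (f1 + (C c0 + C c1 * f2 + C c2 * f3 + C c3 * f3 ^ 2)) =
      D f1 + (C c1 : MvPolynomial (Fin 3) K) • D f2 +
        (C c2 + C (2 * c3) * f3) • D f3 := by
  simp only [D_add, D_Cmul, D_C, D_sq, smul_smul, add_smul, map_mul, map_ofNat]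
  rw [zero_add]
  have : (C c3 * (2 * f3) : MvPolynomial (Fin 3) K) = 2 * C c3 * f3 := by ring
  rw [this]
  abel

/-- degree of the coefficient -/
lemma dg_s (F : Facts K w) {f3 : MvPolynomial (Fin 3) K} {t : ℝ} (ht : 0 < t) (h3 : dg w f3 = t)
    (a : K) {b : K} (hb : b ≠ 0) :
    dg w (C a + C b * f3) = t ∧ (C a + C b * f3 : MvPolynomial (Fin 3) K) ≠ 0 := by
  have h : dg w (C a + C b * f3) = t := by
    rw [F.d.add_right _ _ (by rw [F.d.const, F.d.Cmul _ _ hb, h3]; exact ht), F.d.Cmul _ _ hb, h3]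
  refine ⟨h, ?_⟩
  intro h0
  rw [h0, F.d.zero] at h
  exact ht.ne h

end Pool.Agent.Lib.MP_e1f7e2_al.SU.H52
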