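import Pool.Agent.Lib.MP_e1f7e2_al.SU.H52.Bstar

set_option autoImplicit false

/-!
Module BSTAR: the three orders.
-/

open MvPolynomial

namespace Pool.Agent.Lib.MP_e1f7e2_al.SU.H52

variable {K : Type*} [Field K] {w : Fin 3 → ℝ}

/-- `x` is no multiple of `y`, if `y < x < 2 y` -/
lemma nmul12 {x y : ℝ} (h1 : y < x) (h2 : x < 2 * y) (n : ℕ) : x ≠ n * y := by
  intro h
  have hy : 0 < y := by linarith
  rcases nat01 n with rfl | rfl | h3
  · push_cast at h; linarith
  · push_cast at h; linarith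
  · nlinarith

/-- `x` is no multiple of `y`, if `0 < x < y` -/
lemma nmul0 {x y : ℝ} (h1 : 0 < x) (h2 : x < y) (n : ℕ) : x ≠ n * y := by
  intro h
  rcases nat01 n with rfl | rfl | h3
  · push_cast at h; linarith
  · push_cast at h; linarith
  · nlinarith

/-- the situation of module BSTAR -/
structure Ctx (w : Fin 3 → ℝ) {K : Type*} [Field K] (f1 f2 f3 h1 : MvPolynomial (Fin 3) K)
    (c0 c1 c2 c3 : K) (γ b t : ℝ) : Prop where
  fr : Fr f1 f2 f3
  hγ : 0 < γ
  d2 : dg w f2 = 2 * γ
  d3 : dg w f3 = 3 / 2 * γ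
  dh : dg w h1 = t
  b12 : br w f1 f2 ≤ γ / 2
  b23 : br w f2 f3 = b
  b13 : br w f1 f3 = γ + b
  hb : 3 / 2 * γ < b
  hc3 : c3 ≠ 0
  e : h1 = f1 + (C c0 + C c1 * f2 + C c2 * f3 + C c3 * f3 ^ 2)
  min : ∀ R : MvPolynomial (Fin 2) K, dg w h1 ≤ dg w (h1 + ev R f2 f3)
  bh2 : br w h1 f2 = 3 / 2 * γ + b
  bh3 : br w h1 f3 = γ + b
  frh : Fr h1 f2 f3
  t1 : γ < t
  t3 : t < 3 * γ
  t2 : t ≠ 2 * γ
  t32 : t ≠ 3 / 2 * γ
  base : sg w < t + 2 * γ + 3 / 2 * γ

theorem case_mid (F : Facts K w) (S : SuAll K w) (hinv : InvStatement K w)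
    {f1 f2 f3 h1 : MvPolynomial (Fin 3) K} {c0 c1 c2 c3 : K} {γ b t : ℝ}
    (H : Ctx w f1 f2 f3 h1 c0 c1 c2 c3 γ b t) (ht : 3 / 2 * γ < t) (ht' : t < 2 * γ) :
    ¬ Red w (sp3 h1 f2 f3) := by
  intro hred
  have hγ := H.hγ
  have hb := H.hb
  rw [sp3_swap12] at hred
  have hgood : Good w f2 h1 f3 := ⟨H.frh.swap12, by rw [H.dh, H.d2]; exact ht', by
    rw [H.dh, H.d3]; exact ht⟩
  rcases hinv f2 h1 f3 hgood hred with h | ⟨Q, h, -⟩ | ⟨c, P, h, -⟩ | ⟨d1, d2, P, h, -⟩ |
      ⟨d1, d2, d3, a, P, γ', hk, -⟩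
  · rw [H.d2, H.dh, H.d3] at h
    linarith [H.base]
  · -- pair (h1, f3), target f2
    have h1' := strict_dg F h
    rw [H.d2] at h1'
    obtain ⟨x, y, hxy⟩ := nores_ex F S (f := h1) (g := f3) (P := Q)
      (by rw [H.bh3]; linarith) (by rw [H.dh, H.d3]; exact nmul12 ht (by linarith))
      (by rw [H.dh, H.d3]; exact nmul0 (by linarith) ht) (by rw [h1', H.bh3]; linarith)
      (by rw [h1']; linarith)
    rw [h1', H.dh, H.d3] at hxy
    rcases nat01 x with rfl | rfl | hx
    · rcases nat01 y with rfl | rfl | hy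
      · push_cast at hxy; linarith
      · push_cast at hxy; linarith
      · push_cast at hxy; nlinarith
    · rcases nat01 y with rfl | rfl | hy
      · push_cast at hxy; linarith
      · push_cast at hxy; linarith
      · push_cast at hxy; nlinarith
    · have hy : (0 : ℝ) ≤ y := by positivity
      nlinarith
  · -- pair (f2 + c h1, f3), target h1
    by_cases hc : c = 0
    · subst hc
      have h2 := H.min P
      rw [map_zero, zero_mul, add_zero] at h
      exact absurd h (not_lt.mpr h2)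
    · have h1' := strict_dg F h
      rw [H.dh] at h1'
      have du : dg w (f2 + C c * h1) = 2 * γ := dg_addC F H.d2 (by rw [H.dh]; exact ht') c
      have bu : br w (f2 + C c * h1) f3 = γ + b :=
        br_addC' F H.bh3 (by rw [H.b23]; linarith) hc
      obtain ⟨x, y, hxy⟩ := nores_ex F S (f := f2 + C c * h1) (g := f3) (P := P)
        (by rw [bu]; linarith) (by rw [du, H.d3]; exact nmul12 (by linarith) (by linarith))
        (by rw [du, H.d3]; exact nmul0 (by linarith) (by linarith)) (by rw [h1', bu]; linarith)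
        (by rw [h1']; linarith)
      rw [h1', du, H.d3] at hxy
      rcases nat01 x with rfl | rfl | hx
      · rcases nat01 y with rfl | rfl | hy
        · push_cast at hxy; linarith
        · push_cast at hxy; linarith
        · push_cast at hxy; nlinarith
      · have hy : (0 : ℝ) ≤ y := by positivity
        push_cast at hxy
        nlinarith
      · have hy : (0 : ℝ) ≤ y := by positivity
        nlinarith
  · -- pair (f2 + d1 f3, h1 + d2 f3), target f3
    have h1' := strict_dg F h
    rw [H.d3] at h1'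
    have du : dg w (f2 + C d1 * f3) = 2 * γ := dg_addC F H.d2 (by rw [H.d3]; linarith) d1
    have dv' : dg w (h1 + C d2 * f3) = t := dg_addC F H.dh (by rw [H.d3]; exact ht) d2
    have b1 : br w (f2 + C d1 * f3) h1 = 3 / 2 * γ + b :=
      br_addC F (by rw [F.b.comm, H.bh2]) (by rw [F.b.comm, H.bh3]; linarith) d1
    have b2 : br w (f2 + C d1 * f3) f3 = b :=
      br_addC F H.b23 (by rw [br_self F]; linarith) d1
    have bu : br w (f2 + C d1 * f3) (h1 + C d2 * f3) = 3 / 2 * γ + b := by
      rw [F.b.comm]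
      exact br_addC F (by rw [F.b.comm, b1]) (by rw [F.b.comm, b2]; linarith) d2
    obtain ⟨x, y, hxy⟩ := nores_ex F S (f := f2 + C d1 * f3) (g := h1 + C d2 * f3) (P := P)
      (by rw [bu]; linarith) (by rw [du, dv']; exact nmul12 ht' (by linarith))
      (by rw [du, dv']; exact nmul0 (by linarith) ht') (by rw [h1', bu]; linarith)
      (by rw [h1']; linarith)
    rw [h1', du, dv'] at hxy
    rcases nat01 x with rfl | rfl | hx
    · rcases nat01 y with rfl | rfl | hy
      · push_cast at hxy; linarith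
      · push_cast at hxy; linarith
      · push_cast at hxy; nlinarith
    · have hy : (0 : ℝ) ≤ y := by positivity
      push_cast at hxy
      nlinarith
    · have hy : (0 : ℝ) ≤ y := by positivity
      nlinarith
  · -- K-vertex
    have e2 := hk.h2
    have e3 := hk.h3
    rw [dg_addC F H.dh (by rw [H.d3]; exact ht) d3] at e2
    rw [H.d3] at e3
    linarith

theorem case_low (F : Facts K w) (S : SuAll K w) (hinv : InvStatement K w)
    (hkf : KFactStatement K w)
    {f1 f2 f3 h1 : MvPolynomial (Fin 3) K} {c0 c1 c2 c3 : K} {γ b t : ℝ}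
    (H : Ctx w f1 f2 f3 h1 c0 c1 c2 c3 γ b t) (ht : t < 3 / 2 * γ) :
    ¬ Red w (sp3 h1 f2 f3) := by
  intro hred
  have hγ := H.hγ
  have hb := H.hb
  have ht1 := H.t1
  rw [sp3_rot] at hred
  have hgood : Good w f2 f3 h1 := ⟨H.frh.rot, by rw [H.d3, H.d2]; linarith, by
    rw [H.dh, H.d3]; exact ht⟩
  rcases hinv f2 f3 h1 hgood hred with h | ⟨Q, h, -⟩ | ⟨c, P, h, -⟩ | ⟨d1, d2, P, h, -⟩ |
      ⟨d1, d2, d3, a, P, γ', hk, -⟩
  · rw [H.d2, H.dh, H.d3] at h
    linarith [H.base]
  · -- pair (f3, h1), target f2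
    have h1' := strict_dg F h
    rw [H.d2] at h1'
    have bu : br w f3 h1 = γ + b := by rw [F.b.comm, H.bh3]
    obtain ⟨x, y, hxy⟩ := nores_ex F S (f := f3) (g := h1) (P := Q)
      (by rw [bu]; linarith) (by rw [H.dh, H.d3]; exact nmul12 ht (by linarith))
      (by rw [H.dh, H.d3]; exact nmul0 (by linarith) ht) (by rw [h1', bu]; linarith)
      (by rw [h1']; linarith)
    rw [h1', H.dh, H.d3] at hxy
    rcases nat01 x with rfl | rfl | hx
    · rcases nat01 y with rfl | rfl | hy
      · push_cast at hxy; linarith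
      · push_cast at hxy; linarith
      · push_cast at hxy; nlinarith
    · rcases nat01 y with rfl | rfl | hy
      · push_cast at hxy; linarith
      · push_cast at hxy; linarith
      · push_cast at hxy; nlinarith
    · have hy : (0 : ℝ) ≤ y := by positivity
      nlinarith
  · -- pair (f2 + c f3, h1), target f3
    have h1' := strict_dg F h
    rw [H.d3] at h1'
    have du : dg w (f2 + C c * f3) = 2 * γ := dg_addC F H.d2 (by rw [H.d3]; linarith) c
    have bu : br w (f2 + C c * f3) h1 = 3 / 2 * γ + b :=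
      br_addC F (by rw [F.b.comm, H.bh2]) (by rw [F.b.comm, H.bh3]; linarith) c
    obtain ⟨x, y, hxy⟩ := nores_ex F S (f := f2 + C c * f3) (g := h1) (P := P)
      (by rw [bu]; linarith) (by rw [du, H.dh]; exact nmul12 (by linarith) (by linarith))
      (by rw [du, H.dh]; exact nmul0 (by linarith) (by linarith)) (by rw [h1', bu]; linarith)
      (by rw [h1']; linarith)
    rw [h1', du, H.dh] at hxy
    rcases nat01 x with rfl | rfl | hx
    · rcases nat01 y with rfl | rfl | hy
      · push_cast at hxy; linarith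
      · push_cast at hxy; linarith
      · push_cast at hxy; nlinarith
    · have hy : (0 : ℝ) ≤ y := by positivity
      push_cast at hxy
      nlinarith
    · have hy : (0 : ℝ) ≤ y := by positivity
      nlinarith
  · -- pair (f2 + d1 h1, f3 + d2 h1), target h1
    by_cases hd : d1 = 0 ∧ d2 = 0
    · obtain ⟨rfl, rfl⟩ := hd
      have h2 := H.min P
      rw [map_zero, zero_mul, add_zero, add_zero] at h
      exact absurd h (not_lt.mpr h2)
    · have h1' := strict_dg F h
      rw [H.dh] at h1'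
      have du : dg w (f2 + C d1 * h1) = 2 * γ := dg_addC F H.d2 (by rw [H.dh]; linarith) d1
      have dv' : dg w (f3 + C d2 * h1) = 3 / 2 * γ := dg_addC F H.d3 (by rw [H.dh]; exact ht) d2
      -- brackets with f3 and with h1
      have b1 : br w (f2 + C d1 * h1) h1 = 3 / 2 * γ + b :=
        br_addC F (by rw [F.b.comm, H.bh2]) (by rw [br_self F]; linarith) d1
      have bu : γ + b ≤ br w (f2 + C d1 * h1) (f3 + C d2 * h1) := by
        by_cases hd1 : d1 = 0
        · have hd2 : d2 ≠ 0 := fun h => hd ⟨hd1, h⟩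
          have b2 : br w (f2 + C d1 * h1) f3 = b := by
            rw [hd1, map_zero, zero_mul, add_zero, H.b23]
          have : br w (f2 + C d1 * h1) (f3 + C d2 * h1) = 3 / 2 * γ + b := by
            rw [F.b.comm]
            exact br_addC' F (by rw [F.b.comm, b1]) (by rw [F.b.comm, b2]; linarith) hd2
          linarith
        · have b2 : br w (f2 + C d1 * h1) f3 = γ + b :=
            br_addC' F H.bh3 (by rw [H.b23]; linarith) hd1
          by_cases hd2 : d2 = 0
          · rw [hd2, map_zero, zero_mul, add_zero, b2]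
          · have : br w (f2 + C d1 * h1) (f3 + C d2 * h1) = 3 / 2 * γ + b := by
              rw [F.b.comm]
              exact br_addC' F (by rw [F.b.comm, b1]) (by rw [F.b.comm, b2]; linarith) hd2
            linarith
      obtain ⟨x, y, hxy⟩ := nores_ex F S (f := f2 + C d1 * h1) (g := f3 + C d2 * h1) (P := P)
        (by linarith) (by rw [du, dv']; exact nmul12 (by linarith) (by linarith))
        (by rw [du, dv']; exact nmul0 (by linarith) (by linarith)) (by rw [h1']; linarith)
        (by rw [h1']; linarith)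
      rw [h1', du, dv'] at hxy
      rcases nat01 x with rfl | rfl | hx
      · rcases nat01 y with rfl | rfl | hy
        · push_cast at hxy; linarith
        · push_cast at hxy; linarith
        · push_cast at hxy; nlinarith
      · have hy : (0 : ℝ) ≤ y := by positivity
        push_cast at hxy
        nlinarith
      · have hy : (0 : ℝ) ≤ y := by positivity
        nlinarith
  · -- K-vertex (f2 + d1 f3 + d2 h1, f3 + d3 h1, h1)
    have hk' := hkf _ _ _ _ _ _ hk
    have e1 := hk'.b1
    have e2 := hk'.b2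
    have e3 := hk.h2
    rw [dg_addC F H.d3 (by rw [H.dh]; exact ht) d3] at e3
    have g1 : br w (f3 + C d3 * h1) h1 = γ + b :=
      br_addC F (by rw [F.b.comm, H.bh3]) (by rw [br_self F]; linarith) d3
    have g2 : br w (f2 + C d1 * f3 + C d2 * h1) h1 = 3 / 2 * γ + b := by
      refine br_addC F ?_ (by rw [br_self F]; linarith) d2
      exact br_addC F (by rw [F.b.comm, H.bh2]) (by rw [F.b.comm, H.bh3]; linarith) d1
    rw [g1] at e1
    rw [g2] at e2
    linarith

theorem case_big (F : Facts K w) (S : SuAll K w) (hinv : InvStatement K w) [CharZero K]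
    {f1 f2 f3 h1 : MvPolynomial (Fin 3) K} {c0 c1 c2 c3 : K} {γ b t : ℝ}
    (H : Ctx w f1 f2 f3 h1 c0 c1 c2 c3 γ b t) (ht : 2 * γ < t)
    (hred : Red w (sp3 h1 f2 f3)) :
    ∃ P : MvPolynomial (Fin 2) K, dg w (f3 + ev P f1 f2) < γ + br w f1 f2 ∧
      Red w (sp3 f1 f2 (f3 + ev P f1 f2)) := by
  have hγ := H.hγ
  have hb := H.hb
  have ht3 := H.t3
  have hgood : Good w h1 f2 f3 := ⟨H.frh, by rw [H.dh, H.d2]; exact ht, by
    rw [H.d2, H.d3]; linarith⟩
  rcases hinv h1 f2 f3 hgood hred with h | ⟨Q, h, -⟩ | ⟨c, P, h, -⟩ | ⟨d1, d2, P, h, -⟩ |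
      ⟨d1, d2, d3, a, P, γ', hk, hr⟩
  · exfalso
    rw [H.d2, H.dh, H.d3] at h
    linarith [H.base]
  · exact absurd h (not_lt.mpr (H.min Q))
  · -- pair (h1 + c f2, f3), target f2
    exfalso
    have h1' := strict_dg F h
    rw [H.d2] at h1'
    have du : dg w (h1 + C c * f2) = t := dg_addC F H.dh (by rw [H.d2]; exact ht) c
    have bu : br w (h1 + C c * f2) f3 = γ + b :=
      br_addC F H.bh3 (by rw [H.b23]; linarith) c
    obtain ⟨x, y, hxy⟩ := nores_ex F S (f := h1 + C c * f2) (g := f3) (P := P)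
      (by rw [bu]; linarith) (by rw [du, H.d3]; exact nmul12 (by linarith) (by linarith))
      (by rw [du, H.d3]; exact nmul0 (by linarith) (by linarith)) (by rw [h1', bu]; linarith)
      (by rw [h1']; linarith)
    rw [h1', du, H.d3] at hxy
    rcases nat01 x with rfl | rfl | hx
    · rcases nat01 y with rfl | rfl | hy
      · push_cast at hxy; linarith
      · push_cast at hxy; linarith
      · push_cast at hxy; nlinarith
    · have hy : (0 : ℝ) ≤ y := by positivity
      push_cast at hxy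
      nlinarith
    · have hy : (0 : ℝ) ≤ y := by positivity
      nlinarith
  · -- pair (h1 + d1 f3, f2 + d2 f3), target f3
    exfalso
    have h1' := strict_dg F h
    rw [H.d3] at h1'
    have du : dg w (h1 + C d1 * f3) = t := dg_addC F H.dh (by rw [H.d3]; linarith) d1
    have dv' : dg w (f2 + C d2 * f3) = 2 * γ := dg_addC F H.d2 (by rw [H.d3]; linarith) d2
    have b1 : br w (h1 + C d1 * f3) f2 = 3 / 2 * γ + b :=
      br_addC F H.bh2 (by rw [F.b.comm, H.b23]; linarith) d1
    have b2 : br w (h1 + C d1 * f3) f3 = γ + b :=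
      br_addC F H.bh3 (by rw [br_self F]; linarith) d1
    have bu : br w (h1 + C d1 * f3) (f2 + C d2 * f3) = 3 / 2 * γ + b := by
      rw [F.b.comm]
      exact br_addC F (by rw [F.b.comm, b1]) (by rw [F.b.comm, b2]; linarith) d2
    obtain ⟨x, y, hxy⟩ := nores_ex F S (f := h1 + C d1 * f3) (g := f2 + C d2 * f3) (P := P)
      (by rw [bu]; linarith) (by rw [du, dv']; exact nmul12 ht (by linarith))
      (by rw [du, dv']; exact nmul0 (by linarith) ht) (by rw [h1', bu]; linarith)
      (by rw [h1']; linarith)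
    rw [h1', du, dv'] at hxy
    rcases nat01 x with rfl | rfl | hx
    · rcases nat01 y with rfl | rfl | hy
      · push_cast at hxy; linarith
      · push_cast at hxy; linarith
      · push_cast at hxy; nlinarith
    · have hy : (0 : ℝ) ≤ y := by positivity
      push_cast at hxy
      nlinarith
    · have hy : (0 : ℝ) ≤ y := by positivity
      nlinarith
  · -- K-vertex
    have e2 := hk.h2
    rw [dg_addC F H.d2 (by rw [H.d3]; linarith) d3] at e2
    have eγ : γ' = γ := by linarith
    subst eγ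
    have e4 := hk.h4
    rw [H.d3] at e4
    have e5 := hk.h5
    -- the first generator of the K-move
    have hg1 : h1 + C d1 * f2 + C d2 * f3 + C a * f3 ^ 2 =
        f1 + (C c0 + C (c1 + d1) * f2 + C (c2 + d2) * f3 + C (c3 + a) * f3 ^ 2) := by
      rw [H.e]
      simp only [map_add]
      ring
    rw [hg1] at e4 e5 hr
    have hD := D_h1 f1 f2 f3 c0 (c1 + d1) (c2 + d2) (c3 + a)
    have hcr : cr (D (f1 + (C c0 + C (c1 + d1) * f2 + C (c2 + d2) * f3 + C (c3 + a) * f3 ^ 2)))
        (D (f2 + C d3 * f3)) = (((C ((c1 + d1) * d3 - (c2 + d2)) +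
          C (-(2 * (c3 + a))) * f3) : MvPolynomial (Fin 3) K) • cr (D f2) (D f3) +
          ((C d3 : MvPolynomial (Fin 3) K) • cr (D f1) (D f3) + cr (D f1) (D f2))) := by
      rw [hD, D_add, D_Cmul]
      simp only [cr_add_left, cr_add_right, cr_smul_left, cr_smul_right, cr_self, smul_zero,
        add_zero]
      rw [cr_anti (D f3) (D f2)]
      simp only [smul_neg, smul_smul, map_sub, map_mul, map_add, map_neg, map_ofNat]
      module
    have hbr : br w (f1 + (C c0 + C (c1 + d1) * f2 + C (c2 + d2) * f3 + C (c3 + a) * f3 ^ 2))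
        (f2 + C d3 * f3) ≤ γ' / 2 := by linarith
    unfold br at hbr
    rw [hcr] at hbr
    have n13 : dv w (cr (D f1) (D f3)) = γ' + b := H.b13
    have n23 : dv w (cr (D f2) (D f3)) = b := H.b23
    have n12 : dv w (cr (D f1) (D f2)) ≤ γ' / 2 := H.b12
    have ne23 : cr (D f2) (D f3) ≠ 0 := F.b.cne f2 f3 f1 H.fr.rot
    have ha : c3 + a = 0 := by
      by_contra hne
      obtain ⟨s1, s2⟩ := dg_s F (f3 := f3) (t := 3 / 2 * γ') (by linarith) H.d3
        ((c1 + d1) * d3 - (c2 + d2)) (b := -(2 * (c3 + a)))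
        (neg_ne_zero.mpr (mul_ne_zero two_ne_zero hne))
      have h5 : dv w (((C ((c1 + d1) * d3 - (c2 + d2)) +
          C (-(2 * (c3 + a))) * f3) : MvPolynomial (Fin 3) K) • cr (D f2) (D f3)) =
          3 / 2 * γ' + b := by
        rw [F.v.smul _ _ s2 ne23, s1, n23]
      have h6 : dv w ((C d3 : MvPolynomial (Fin 3) K) • cr (D f1) (D f3) + cr (D f1) (D f2)) ≤
          γ' + b := by
        refine (F.v.add_le _ _).trans (max_le ?_ (by linarith))
        rw [← n13]
        exact dvC_le F _ _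
      rw [dv_dom F h5 h6 (by linarith)] at hbr
      linarith
    rw [ha, mul_zero, neg_zero, map_zero, zero_mul, add_zero] at hbr
    have hd3 : d3 = 0 := by
      by_contra hne
      have h5 : dv w ((C d3 : MvPolynomial (Fin 3) K) • cr (D f1) (D f3)) = γ' + b := by
        rw [F.v.Csmul _ _ hne, n13]
      have h6 : dv w ((C ((c1 + d1) * d3 - (c2 + d2)) : MvPolynomial (Fin 3) K) •
          cr (D f2) (D f3) + cr (D f1) (D f2)) ≤ b := by
        refine (F.v.add_le _ _).trans (max_le ?_ (by linarith))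
        rw [← n23]
        exact dvC_le F _ _
      have h7 : (C ((c1 + d1) * d3 - (c2 + d2)) : MvPolynomial (Fin 3) K) •
          cr (D f2) (D f3) + ((C d3 : MvPolynomial (Fin 3) K) • cr (D f1) (D f3) +
          cr (D f1) (D f2)) = (C d3 : MvPolynomial (Fin 3) K) • cr (D f1) (D f3) +
          ((C ((c1 + d1) * d3 - (c2 + d2)) : MvPolynomial (Fin 3) K) •
          cr (D f2) (D f3) + cr (D f1) (D f2)) := by abel
      rw [h7, dv_dom F h5 h6 (by linarith)] at hbr
      linarith
    subst hd3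
    rw [mul_zero, zero_sub, map_zero, zero_smul, zero_add] at hbr
    have hd2 : c2 + d2 = 0 := by
      by_contra hne
      have h5 : dv w ((C (-(c2 + d2)) : MvPolynomial (Fin 3) K) • cr (D f2) (D f3)) = b := by
        rw [F.v.Csmul _ _ (neg_ne_zero.mpr hne), n23]
      rw [dv_dom F h5 n12 (by linarith)] at hbr
      linarith
    -- the generators
    rw [ha, hd2] at e5 hr
    have hg : f1 + (C c0 + C (c1 + d1) * f2 + C 0 * f3 + C 0 * f3 ^ 2) =
        ev (X 0 + C (c1 + d1) * X 1 + C c0) f1 f2 := by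
      simp only [ev_add, ev_mul, ev_C, ev_X0, ev_X1, map_zero]
      ring
    have hg' : f2 + C 0 * f3 = ev (X 1) f1 f2 := by
      rw [ev_X1, map_zero, zero_mul, add_zero]
    have hbr' : br w (f1 + (C c0 + C (c1 + d1) * f2 + C 0 * f3 + C 0 * f3 ^ 2))
        (f2 + C 0 * f3) = br w f1 f2 := by
      have hcr' := hcr
      rw [ha, hd2] at hcr'
      unfold br
      rw [hcr']
      simp
    rw [hbr'] at e5
    rw [hg, hg', ev_comp] at e5 hr
    refine ⟨_, e5, ?_⟩
    rw [ev_X1] at hr
    have hs := sp3_add1 f1 f2 (f3 + ev ((aeval ![X 0 + C (c1 + d1) * X 1 + C c0, X 1]) P) f1 f2)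
      (c1 + d1) 0 c0
    have hs' : ev (X 0 + C (c1 + d1) * X 1 + C c0) f1 f2 = f1 + C (c1 + d1) * f2 +
        C 0 * (f3 + ev ((aeval ![X 0 + C (c1 + d1) * X 1 + C c0, X 1]) P) f1 f2) + C c0 := by
      simp only [ev_add, ev_mul, ev_C, ev_X0, ev_X1, map_zero]
      ring
    rw [hs', hs] at hr
    exact hr

theorem bstar [CharZero K] (F : Facts K w) (S : SuAll K w)
    (hinv : InvStatement K w) (hkf : KFactStatement K w) : BstarStatement K w := by
  intro f1 f2 f3 h1 R γ hfr hγ hd1 hd2 hd3 hb3 hb1 hb2 hh1 hmin hlt hred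
  have hR : dg w (ev R f2 f3) = 3 * γ := by
    rw [← hd1]
    apply strict_dg F
    rw [← hh1, hd1]
    exact hlt
  have hv : vdg (dg w f2) (dg w f3) R = 3 * γ := by
    by_contra hne
    have hlt' : dg w (ev R f2 f3) < vdg (dg w f2) (dg w f3) R := by
      refine lt_of_le_of_ne (F.p.ev_le f2 f3 R) ?_
      rw [hR]; exact fun h => hne h.symm
    have := deg43 S hγ hd2 hd3 (by linarith) hlt'
    rw [hR] at this
    linarith
  obtain ⟨c0, c1, c2, c3, hsh⟩ := shape F hγ hd2 hd3 hv
  have hc3 : c3 ≠ 0 := by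
    rintro rfl
    rw [map_zero, zero_mul, add_zero] at hsh
    have h1 : dg w (ev R f2 f3) ≤ 2 * γ := by
      rw [hsh]
      refine (F.d.add_le _ _).trans (max_le ((F.d.add_le _ _).trans (max_le ?_ ?_)) ?_)
      · rw [F.d.const]; linarith
      · exact (F.d.Cmul_le _ _).trans hd2.le
      · exact (F.d.Cmul_le _ _).trans (by rw [hd3]; linarith)
    rw [hR] at h1
    linarith
  have he : h1 = f1 + (C c0 + C c1 * f2 + C c2 * f3 + C c3 * f3 ^ 2) := by rw [hh1, hsh]
  have hD : D h1 = D f1 + (C c1 : MvPolynomial (Fin 3) K) • D f2 +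
        (C c2 + C (2 * c3) * f3) • D f3 := by
    rw [he]; exact D_h1 f1 f2 f3 c0 c1 c2 c3
  obtain ⟨s1, s2⟩ := dg_s F (f3 := f3) (t := 3 / 2 * γ) (by linarith) hd3
        c2 (b := 2 * c3) (mul_ne_zero two_ne_zero hc3)
  have ne32 : cr (D f3) (D f2) ≠ 0 := F.b.cne f3 f2 f1 hfr.swap13
  have bh2 : br w h1 f2 = 3 / 2 * γ + br w f2 f3 := by
    unfold br
    rw [hD, cr_add_left, cr_add_left, cr_smul_left, cr_smul_left, cr_self, smul_zero, add_zero,
      add_comm]
    refine dv_dom F (b := γ / 2) ?_ hb3 ?_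
    · rw [F.v.smul _ _ s2 ne32, s1, cr_anti, F.v.neg]
    · have : dv w (cr (D f2) (D f3)) = br w f2 f3 := rfl
      rw [this]; linarith
  have bh3 : br w h1 f3 = γ + br w f2 f3 := by
    unfold br
    rw [hD, cr_add_left, cr_add_left, cr_smul_left, cr_smul_left, cr_self, smul_zero, add_zero]
    refine dv_dom F (b := br w f2 f3) hb2 (dvC_le F _ _) ?_
    have : dv w (cr (D f2) (D f3)) = br w f2 f3 := rfl
    rw [this]; linarith
  have frh : Fr h1 f2 f3 := by rw [hh1]; exact hfr.elem1 R
  have tpos : 0 < dg w h1 := F.b.dpos _ _ _ frh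
  have t1 : γ < dg w h1 := by
    have := F.b.le h1 f2
    rw [bh2, hd2] at this
    linarith
  have t2 : dg w h1 ≠ 2 * γ := by rw [← hd2]; exact min_ne0 F tpos hmin
  have t32 : dg w h1 ≠ 3 / 2 * γ := by rw [← hd3]; exact min_ne1 F tpos hmin
  have base : sg w < dg w h1 + 2 * γ + 3 / 2 * γ := by
    have := F.b.sgle f3 f1 f2 hfr.rot'
    rw [hd3] at this
    linarith
  have H : Ctx w f1 f2 f3 h1 c0 c1 c2 c3 γ (br w f2 f3) (dg w h1) :=
    ⟨hfr, hγ, hd2, hd3, rfl, hb3, rfl, hb2, hb1, hc3, he, hmin, bh2, bh3, frh, t1, hlt, t2, t32,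
      base⟩
  rcases lt_or_gt_of_ne t2 with h | h
  · exfalso
    rcases lt_or_gt_of_ne t32 with h' | h'
    · exact case_low F S hinv hkf H h' hred
    · exact case_mid F S hinv H h' h hred
  · exact case_big F S hinv H h hred

end Pool.Agent.Lib.MP_e1f7e2_al.SU.H52
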