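import Pool.Agent.Lib.MP_e1f7e2_al.SU.Iface

set_option autoImplicit false

/-!
Numerical tools for the module BSTAR.
-/

open MvPolynomial

namespace Pool.Agent.Lib.MP_e1f7e2_al.SU.H52

variable {K : Type*} [Field K] {w : Fin 3 → ℝ}

lemma nat01 (a : ℕ) : a = 0 ∨ a = 1 ∨ (2 : ℝ) ≤ a := by
  rcases Nat.lt_or_ge a 2 with h | h
  · have : a = 0 ∨ a = 1 := by omega
    tauto
  · right; right; exact_mod_cast h

lemma nat012 (a : ℕ) : a = 0 ∨ a = 1 ∨ a = 2 ∨ (3 : ℝ) ≤ a := by
  rcases Nat.lt_or_ge a 3 with h | h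
  · have : a = 0 ∨ a = 1 ∨ a = 2 := by omega
    tauto
  · right; right; right; exact_mod_cast h

/-- the inequality for a degenerate polynomial -/
lemma degen (S : SuAll K w) {f g : MvPolynomial (Fin 3) K} {P : MvPolynomial (Fin 2) K}
    (hb : 0 < br w f g) (hd : dg w (ev P f g) < vdg (dg w f) (dg w g) P) :
    ∃ (p q m : ℕ) (γ : ℝ), 0 < γ ∧ 1 ≤ p ∧ 1 ≤ q ∧ 1 ≤ m ∧ Nat.Coprime p q ∧
      dg w f = p * γ ∧ dg w g = q * γ ∧
      m * ((p * q - p - q) * γ + br w f g) ≤ dg w (ev P f g) := by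
  obtain ⟨p, q, m, γ, h⟩ := S.su f g P hb hd
  obtain ⟨i, j, h1, h2⟩ := S.low f g P p q m γ h
  refine ⟨p, q, m, γ, h.hγ, h.hp, h.hq, h.hm, h.cop, h.df, h.dg', ?_⟩
  have h3 : (0 : ℝ) ≤ (i * p + j * q) * γ :=
    mul_nonneg (by positivity) h.hγ.le
  linarith

/-- coprime numbers that are not 1 -/
lemma pq_ge {p q : ℕ} (hp : 2 ≤ p) (hq : 2 ≤ q) (hc : Nat.Coprime p q) :
    (1 : ℝ) ≤ (p : ℝ) * q - p - q := by
  have hne : p ≠ q := by
    rintro rfl
    rw [Nat.coprime_self] at hc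
    omega
  have h : p + q + 1 ≤ p * q := by
    rcases Nat.lt_or_gt_of_ne hne with h | h
    · obtain ⟨a, rfl⟩ := Nat.exists_eq_add_of_le hp
      obtain ⟨b, rfl⟩ := Nat.exists_eq_add_of_le hq
      nlinarith
    · obtain ⟨a, rfl⟩ := Nat.exists_eq_add_of_le hp
      obtain ⟨b, rfl⟩ := Nat.exists_eq_add_of_le hq
      nlinarith
  have h' : ((p + q + 1 : ℕ) : ℝ) ≤ ((p * q : ℕ) : ℝ) := by exact_mod_cast h
  push_cast at h'
  linarith

/-- if none of the two degrees is a multiple of the other one, a degenerate polynomial has degree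
bigger than the bracket -/
lemma nores (F : Facts K w) (S : SuAll K w) {f g : MvPolynomial (Fin 3) K}
    {P : MvPolynomial (Fin 2) K} (hb : 0 < br w f g)
    (h1 : ∀ n : ℕ, dg w f ≠ n * dg w g) (h2 : ∀ n : ℕ, dg w g ≠ n * dg w f)
    (hle : dg w (ev P f g) ≤ br w f g) : dg w (ev P f g) = vdg (dg w f) (dg w g) P := by
  by_contra hne
  have hlt : dg w (ev P f g) < vdg (dg w f) (dg w g) P :=
    lt_of_le_of_ne (F.p.ev_le f g P) hne
  obtain ⟨p, q, m, γ, hγ, hp, hq, hm, hc, hf, hg, hl⟩ := degen S hb hlt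
  have hp2 : 2 ≤ p := by
    by_contra hp2
    have : p = 1 := by omega
    subst this
    apply h2 q
    rw [hf, hg]; push_cast; ring
  have hq2 : 2 ≤ q := by
    by_contra hq2
    have : q = 1 := by omega
    subst this
    apply h1 p
    rw [hf, hg]; push_cast; ring
  have h3 := pq_ge hp2 hq2 hc
  have hm' : (1 : ℝ) ≤ m := by exact_mod_cast hm
  have h4 : γ ≤ (p * q - p - q) * γ := by nlinarith
  nlinarith

/-- a nondegenerate polynomial of positive degree has a monomial of that degree -/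
lemma nores_ex (F : Facts K w) (S : SuAll K w) {f g : MvPolynomial (Fin 3) K}
    {P : MvPolynomial (Fin 2) K} (hb : 0 < br w f g)
    (h1 : ∀ n : ℕ, dg w f ≠ n * dg w g) (h2 : ∀ n : ℕ, dg w g ≠ n * dg w f)
    (hle : dg w (ev P f g) ≤ br w f g) (hpos : 0 < dg w (ev P f g)) :
    ∃ a b : ℕ, (a : ℝ) * dg w f + (b : ℝ) * dg w g = dg w (ev P f g) := by
  have h := nores F S hb h1 h2 hle
  have hP : P ≠ 0 := by
    rintro rfl
    rw [ev_zero, F.d.zero] at hpos
    exact lt_irrefl _ hpos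
  obtain ⟨m, -, hm⟩ := F.p.att (dg w f) (dg w g) P hP
  exact ⟨m 0, m 1, by rw [hm, h]⟩

/-- degree of the subtracted part of a strict move -/
lemma strict_dg (F : Facts K w) {f e : MvPolynomial (Fin 3) K} (h : dg w (f + e) < dg w f) :
    dg w e = dg w f := by
  have h1 : e = (f + e) - f := by ring
  rw [h1]
  rw [F.d.sub_right _ _ h]

/-- a minimal element has a degree different from that of the second generator -/
lemma min_ne0 (F : Facts K w) {h f g : MvPolynomial (Fin 3) K} (hp : 0 < dg w h)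
    (hm : ∀ R : MvPolynomial (Fin 2) K, dg w h ≤ dg w (h + ev R f g)) : dg w h ≠ dg w f := by
  intro he
  obtain ⟨c, hc, h1⟩ := F.d.lead h f hp he
  have h2 := hm (- (C c * X 0))
  rw [ev_neg, ev_mul, ev_C, ev_X0, ← sub_eq_add_neg] at h2
  exact absurd h1 (not_lt.mpr h2)

lemma min_ne1 (F : Facts K w) {h f g : MvPolynomial (Fin 3) K} (hp : 0 < dg w h)
    (hm : ∀ R : MvPolynomial (Fin 2) K, dg w h ≤ dg w (h + ev R f g)) : dg w h ≠ dg w g := by
  intro he
  obtain ⟨c, hc, h1⟩ := F.d.lead h g hp he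
  have h2 := hm (- (C c * X 1))
  rw [ev_neg, ev_mul, ev_C, ev_X1, ← sub_eq_add_neg] at h2
  exact absurd h1 (not_lt.mpr h2)

/-- three summands, the first one dominates -/
lemma dv_dom (F : Facts K w) {u v : Fin 3 → MvPolynomial (Fin 3) K} {a b : ℝ}
    (hu : dv w u = a) (hv : dv w v ≤ b) (hab : b < a) : dv w (u + v) = a := by
  rw [F.v.add_left _ _ (by rw [hu]; exact lt_of_le_of_lt hv hab), hu]

/-- bracket in terms of the cross product, other order -/
lemma br_def' (F : Facts K w) (f g : MvPolynomial (Fin 3) K) :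
    dv w (cr (D f) (D g)) = br w f g := rfl

lemma dvC_le (F : Facts K w) (c : K) (u : Fin 3 → MvPolynomial (Fin 3) K) :
    dv w ((C c : MvPolynomial (Fin 3) K) • u) ≤ dv w u := by
  have := F.v.smul_le (C c) u
  rwa [F.d.const, zero_add] at this

end Pool.Agent.Lib.MP_e1f7e2_al.SU.H52

namespace Pool.Agent.Lib.MP_e1f7e2_al.SU.H52

variable {K : Type*} [Field K] {w : Fin 3 → ℝ}

lemma br_self (F : Facts K w) (f : MvPolynomial (Fin 3) K) : br w f f = 0 := by
  unfold br
  rw [cr_self, F.v.zero]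

lemma br_addC (F : Facts K w) {f g k : MvPolynomial (Fin 3) K} {a : ℝ} (h : br w f k = a)
    (h' : br w g k < a) (c : K) : br w (f + C c * g) k = a := by
  unfold br at *
  rw [D_add, D_Cmul, cr_add_left, cr_smul_left]
  exact dv_dom F h (dvC_le F c _) h'

lemma br_addC' (F : Facts K w) {f g k : MvPolynomial (Fin 3) K} {a : ℝ} (h : br w g k = a)
    (h' : br w f k < a) {c : K} (hc : c ≠ 0) : br w (f + C c * g) k = a := by
  unfold br at *
  rw [D_add, D_Cmul, cr_add_left, cr_smul_left, add_comm]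
  exact dv_dom F (by rw [F.v.Csmul _ _ hc, h]) le_rfl h'

lemma dg_addC (F : Facts K w) {f g : MvPolynomial (Fin 3) K} {a : ℝ} (h : dg w f = a)
    (h' : dg w g < a) (c : K) : dg w (f + C c * g) = a := by
  rw [F.d.add_left _ _ (lt_of_le_of_lt (F.d.Cmul_le c g) (by rw [h]; exact h')), h]

end Pool.Agent.Lib.MP_e1f7e2_al.SU.H52
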